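import Pool.Agent.X120.JG.Den
import Pool.Agent.X120.GS.Degv

/-!
# The period functions of the modular invariant at the points of geometric sequences
-/

set_option autoImplicit false

open Filter Topology

namespace Pool.Agent.X120.JG

open Pool.Agent.X120.GS Pool.Agent.Y120.R Pool.Agent.TH127.PT Pool.Agent.Y123.ST Pool.Agent.Y123.SR
open Pool.Agent.Y113 (DC finrank_pow_le finrank_mul_le)
open Pool.Agent.Y123.GN hiding tpi
open Pool.Agent.Y120.J (hJ hS si qJ qS pS tpi multi')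

/-- the change of the period functions -/
noncomputable def lJ (s : Bool) (L : ℂ) : Fin 3 → Fin 3 → ℂ :=
  ![![tpi, 0, 0], ![(if s then 0 else tpi / 2) - L, 1, 0], ![0, 0, tpi]]

theorem tpi_ne : tpi ≠ 0 := by
  unfold tpi
  have h1 : (Real.pi : ℂ) ≠ 0 := by exact_mod_cast Real.pi_ne_zero
  exact mul_ne_zero (mul_ne_zero two_ne_zero h1) Complex.I_ne_zero

theorem pS_lJ (s : Bool) (t : ℝ) (a : Fin 3) : pS s t a = ∑ l, lJ s ((Real.log t : ℝ) : ℂ) a l * pV s t l := by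
  have h0 : MvPolynomial.aeval (p1 (hS s) t) (qJ 0) = tpi * pV s t 0 := by
    rw [pV_eq]
    show MvPolynomial.aeval (p1 (hS s) t) (MvPolynomial.C tpi * (MvPolynomial.X (some 0) * MvPolynomial.X (some 0))) = _
    rw [map_mul, map_mul, MvPolynomial.algHom_C, MvPolynomial.aeval_X]
    rfl
  have h1 : MvPolynomial.aeval (p1 (hS s) t) (qJ 1) = pV s t 1 - ((Real.log t : ℝ) : ℂ) * pV s t 0 := by
    rw [pV_eq, pV_eq]
    show MvPolynomial.aeval (p1 (hS s) t) (MvPolynomial.X (some 0) *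
        (MvPolynomial.X (some 1) - MvPolynomial.X none * MvPolynomial.X (some 0))) = _
    rw [map_mul, map_sub, map_mul, MvPolynomial.aeval_X, MvPolynomial.aeval_X, MvPolynomial.aeval_X]
    show p1 (hS s) t (some 0) * (p1 (hS s) t (some 1) - ((Real.log t : ℝ) : ℂ) * p1 (hS s) t (some 0)) =
      p1 (hS s) t (some 0) * p1 (hS s) t (some 1) - ((Real.log t : ℝ) : ℂ) * (p1 (hS s) t (some 0) * p1 (hS s) t (some 0))
    ring
  have h2 : MvPolynomial.aeval (p1 (hS s) t) (qJ 2) = tpi * pV s t 2 := by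
    rw [pV_eq]
    show MvPolynomial.aeval (p1 (hS s) t) (MvPolynomial.C tpi * (MvPolynomial.X (some 0) * MvPolynomial.X (some 2))) = _
    rw [map_mul, map_mul, MvPolynomial.algHom_C, MvPolynomial.aeval_X, MvPolynomial.aeval_X]
    rfl
  rw [Fin.sum_univ_three]
  unfold pS
  cases s
  · fin_cases a
    · show MvPolynomial.aeval (p1 (hS false) t) (qJ 0) = tpi * pV false t 0 + 0 * pV false t 1 + 0 * pV false t 2
      rw [h0]
      ring
    · show MvPolynomial.aeval (p1 (hS false) t) (qJ 1 + MvPolynomial.C (1 / 2) * qJ 0) =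
        (tpi / 2 - ((Real.log t : ℝ) : ℂ)) * pV false t 0 + 1 * pV false t 1 + 0 * pV false t 2
      rw [map_add, map_mul, h1, h0, MvPolynomial.algHom_C]
      show _ + ((1 / 2 : ℂ)) * _ = _
      ring
    · show MvPolynomial.aeval (p1 (hS false) t) (qJ 2) = 0 * pV false t 0 + 0 * pV false t 1 + tpi * pV false t 2
      rw [h2]
      ring
  · fin_cases a
    · show MvPolynomial.aeval (p1 (hS true) t) (qJ 0) = tpi * pV true t 0 + 0 * pV true t 1 + 0 * pV true t 2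
      rw [h0]
      ring
    · show MvPolynomial.aeval (p1 (hS true) t) (qJ 1) =
        (0 - ((Real.log t : ℝ) : ℂ)) * pV true t 0 + 1 * pV true t 1 + 0 * pV true t 2
      rw [h1]
      ring
    · show MvPolynomial.aeval (p1 (hS true) t) (qJ 2) = 0 * pV true t 0 + 0 * pV true t 1 + tpi * pV true t 2
      rw [h2]
      ring

section
variable {k : ℕ}

/-- the substitution -/
noncomputable def PhJ (ℓ : Fin k → Fin 3 → Fin 3 → ℂ) (v : Σ _ : Fin k, Fin 3) : MvPolynomial (Σ _ : Fin k, Fin 3) ℂ :=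
  ∑ l, MvPolynomial.C (ℓ v.1 v.2 l) * MvPolynomial.X (⟨v.1, l⟩ : Σ _ : Fin k, Fin 3)

theorem PhJ_DC {W : Submodule ℚ ℂ} {ℓ : Fin k → Fin 3 → Fin 3 → ℂ} (hℓ : ∀ i a b, ℓ i a b ∈ W) (v : Σ _ : Fin k, Fin 3) :
    DC 1 W (PhJ ℓ v) :=
  DC.sum _ fun l _ => DCaX (hℓ v.1 v.2 l) _

theorem PhJ_eval (ℓ : Fin k → Fin 3 → Fin 3 → ℂ) (z : (Σ _ : Fin k, Fin 3) → ℂ) (v : Σ _ : Fin k, Fin 3) :
    MvPolynomial.aeval z (PhJ ℓ v) = ∑ l, ℓ v.1 v.2 l * z ⟨v.1, l⟩ := by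
  unfold PhJ
  rw [map_sum]
  refine Finset.sum_congr rfl fun l _ => ?_
  rw [map_mul, MvPolynomial.aeval_C, MvPolynomial.aeval_X]
  rfl

theorem PhJ_ne {s : Fin k → Bool} {L : Fin k → ℂ} {R : MvPolynomial (Σ _ : Fin k, Fin 3) ℂ}
    (h : MvPolynomial.aeval (PhJ fun i => lJ (s i) (L i)) R = 0) : R = 0 := by
  refine MvPolynomial.funext fun Z => ?_
  rw [map_zero]
  set z : (Σ _ : Fin k, Fin 3) → ℂ := fun v => (![Z ⟨v.1, 0⟩ / tpi,
    Z ⟨v.1, 1⟩ - ((if s v.1 then 0 else tpi / 2) - L v.1) * (Z ⟨v.1, 0⟩ / tpi), Z ⟨v.1, 2⟩ / tpi] : Fin 3 → ℂ) v.2 with hz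
  have h1 := congrArg (MvPolynomial.aeval z) h
  rw [map_zero, aeval_comp'] at h1
  rw [← MvPolynomial.aeval_eq_eval, ← h1]
  have ht := tpi_ne
  congr 1
  congr 1
  funext v
  rw [PhJ_eval, Fin.sum_univ_three]
  obtain ⟨i, a⟩ := v
  fin_cases a
  · show Z ⟨i, 0⟩ = tpi * (Z ⟨i, 0⟩ / tpi) + 0 * _ + 0 * _
    field_simp
    ring
  · show Z ⟨i, 1⟩ = ((if s i then 0 else tpi / 2) - L i) * (Z ⟨i, 0⟩ / tpi) +
      1 * (Z ⟨i, 1⟩ - ((if s i then 0 else tpi / 2) - L i) * (Z ⟨i, 0⟩ / tpi)) + 0 * _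
    ring
  · show Z ⟨i, 2⟩ = 0 * _ + 0 * _ + tpi * (Z ⟨i, 2⟩ / tpi)
    field_simp
    ring

/-- the curve -/
def SV (s : Bool) (τ : ℝ) : Set (ℂ × (Fin 3 → ℂ)) := {p | ∃ t : ℝ, τ < t ∧ p = (1 / (t : ℂ), pV s t)}

/-- there are no functional relations -/
theorem fn_zeroV {s : Fin k → Bool} {R : MvPolynomial (Σ _ : Fin k, Fin 3) (MvPolynomial (Fin k) ℂ)}
    (hR : Fn (fun i : Fin k => hS (s i)) (so fun _ => q3) R) : R = 0 := by
  obtain ⟨τ, hτ⟩ := hR
  refine multi' (fun i => SV (s i) τ) (fun i P hP => dnV (s i) τ P fun t ht => ?_) R ?_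
  · have hm : (1 / (t : ℂ), pV (s i) t) ∈ SV (s i) τ := ⟨t, ht, rfl⟩
    exact hP (1 / (t : ℂ), pV (s i) t) hm
  · intro p hp
    choose t ht hps using hp
    have h1 := hτ t ht
    have e : p = fun i => (1 / (t i : ℂ), pV (s i) (t i)) := funext hps
    rw [e]
    exact h1

/-- **there are few relations between the period functions** -/
theorem noZ (k d D : ℕ) (s : Fin k → Bool) {b : Fin k → ℕ} (hb : ∀ i, 2 ≤ b i) :
    ∃ C : ℝ, 0 ≤ C ∧ ∀ (V : Submodule ℚ ℂ) [Module.Finite ℚ V], Module.finrank ℚ V ≤ D →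
      ∀ T : ℕ, 2 ≤ T → ∀ S : Finset (Fin k → ℕ),
      (∀ t ∈ S, (∀ i, 1 ≤ t i ∧ t i ≤ T) ∧ ∃ R : MvPolynomial (Σ _ : Fin k, Fin 3) ℂ, R ≠ 0 ∧ R.totalDegree ≤ d ∧
        (∀ u, R.coeff u ∈ V) ∧ MvPolynomial.eval (fun v : Σ _ : Fin k, Fin 3 => pS (s v.1) (tp b t v.1 : ℝ) v.2) R = 0) →
      (S.card : ℝ) * T ≤ C * (T : ℝ) ^ k * Real.log T := by
  classical
  obtain ⟨C, hC, h1⟩ := relXS' (ν := fun _ : Fin k => Fin 3) (r := fun _ => 4) (h := fun i => hS (s i)) d 2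
    (D * (1 + (k + 1) + 1) ^ d) hb fun i => famJ (s i) (hb i) (d * 2)
  refine ⟨C, hC, ?_⟩
  intro V _ hV T hT S hS
  obtain ⟨hbf, hb1⟩ := bot_fin
  obtain ⟨W, hW1, hW2, hKW, hW3⟩ := exists_W' (⊥ : Subfield ℂ)
    (fun o : Option (Fin k) => o.elim tpi fun i => ((Real.log (b i) : ℝ) : ℂ))
  have hW1' : (1 : ℂ) ∈ W := hKW 1 (⊥ : Subfield ℂ).one_mem
  obtain ⟨hp1, hp2⟩ := finrank_pow_le W d
  have hWD : Module.finrank ℚ W ≤ 1 + (k + 1) + 1 := by
    refine hW2.trans ?_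
    have h9 : Module.finrank ℚ (⊥ : Subfield ℂ) ≤ 1 := by omega
    have h10 : Fintype.card (Option (Fin k)) = k + 1 := by rw [Fintype.card_option, Fintype.card_fin]
    rw [h10]
    omega
  obtain ⟨hq1, hq2⟩ := finrank_mul_le V (W ^ d)
  refine h1 (fun _ => q3) (fun _ j => q3_deg j) (V * W ^ d)
    (hq2.trans (Nat.mul_le_mul hV (hp2.trans (Nat.pow_le_pow_left hWD _)))) T hT S fun t ht => ?_
  obtain ⟨hbox, R, hR0, hRd, hRV, hRz⟩ := hS t ht
  set L : Fin k → ℂ := fun i => ((Real.log (tp b t i : ℝ) : ℝ) : ℂ) with hL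
  have hLW : ∀ i, L i ∈ W := by
    intro i
    have h2 : L i = ((t i : ℕ) : ℚ) • ((Real.log (b i) : ℝ) : ℂ) := by
      rw [hL]
      show ((Real.log ((b i ^ t i : ℕ) : ℝ) : ℝ) : ℂ) = _
      push_cast
      rw [Real.log_pow, Algebra.smul_def]
      push_cast
      simp
    rw [h2]
    exact W.smul_mem _ (hW3 (some i))
  have hℓ : ∀ i a c, lJ (s i) (L i) a c ∈ W := by
    intro i a c
    have ht := hW3 none
    have ht2 : (if s i then 0 else tpi / 2) - L i ∈ W := by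
      refine W.sub_mem ?_ (hLW i)
      split_ifs
      · exact W.zero_mem
      · have h3 : tpi / 2 = (1 / 2 : ℚ) • tpi := by
          rw [Algebra.smul_def]
          simp
          ring
        rw [h3]
        exact W.smul_mem _ ht
    fin_cases a <;> fin_cases c
    · exact ht
    · exact W.zero_mem
    · exact W.zero_mem
    · exact ht2
    · exact hW1'
    · exact W.zero_mem
    · exact W.zero_mem
    · exact W.zero_mem
    · exact ht
  have hDC : DC d (V * W ^ d) (MvPolynomial.aeval (PhJ fun i => lJ (s i) (L i)) R) :=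
    DC.subst' hW1' _ (PhJ_DC hℓ) ⟨hRd, hRV⟩
  refine ⟨hbox, MvPolynomial.aeval (PhJ fun i => lJ (s i) (L i)) R, hDC.1, hDC.2, ?_, ?_⟩
  · rw [← MvPolynomial.aeval_eq_eval, aeval_comp']
    rw [← MvPolynomial.aeval_eq_eval] at hRz
    refine Eq.trans ?_ hRz
    congr 1
    congr 1
    funext v
    rw [PhJ_eval, pS_lJ]
    rfl
  · rintro ⟨R', -, hR', hRF⟩
    rw [fn_zeroV hR', map_zero] at hRF
    exact hR0 (PhJ_ne hRF.symm)

end

end Pool.Agent.X120.JG
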