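import Pool.Agent.X120.JG.Fam
import Pool.Agent.Y120.A.All
import Pool.Agent.Y120.J.All

/-!
# The products of the hypergeometric functions of `j` are algebraically independent
-/

set_option autoImplicit false

open PowerSeries Filter Topology

namespace Pool.Agent.X120.JG

open Pool.Agent.Y120.J (hJ hS si)
open Pool.Agent.Y113 (ps SDc)
open Pool.Agent.Y120.GH (Cw ou ou_inj ou_an ou_mul ou_add ou_C ou_X ou_ev cx coeff_cx cx_mem C_mem X_mem)
open Pool.Agent.Y120.R (p1)

section descent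
variable {σ : Type}

/-- the image of the coefficients under a functional -/
noncomputable def fm (φ : ℂ →ₗ[ℚ] ℚ) (P : MvPolynomial σ ℂ) : MvPolynomial σ ℚ :=
  ∑ s ∈ P.support, MvPolynomial.monomial s (φ (P.coeff s))

theorem fm_coeff (φ : ℂ →ₗ[ℚ] ℚ) (P : MvPolynomial σ ℂ) (s : σ →₀ ℕ) : (fm φ P).coeff s = φ (P.coeff s) := by
  classical
  unfold fm
  rw [MvPolynomial.coeff_sum]
  simp only [MvPolynomial.coeff_monomial]
  rw [Finset.sum_ite_eq']
  split_ifs with h
  · rfl
  · rw [MvPolynomial.notMem_support_iff.1 h, map_zero]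

theorem fm_aeval (φ : ℂ →ₗ[ℚ] ℚ) (y : σ → ℚ⟦X⟧) (P : MvPolynomial σ ℂ) (m : ℕ) :
    coeff m (MvPolynomial.aeval y (fm φ P)) = φ (coeff m (MvPolynomial.aeval (fun v => cx (y v)) P)) := by
  classical
  have h1 : MvPolynomial.aeval (fun v => cx (y v)) P = ∑ s ∈ P.support, C (P.coeff s) * cx (s.prod fun v e => y v ^ e) := by
    conv_lhs => rw [P.as_sum]
    rw [map_sum]
    refine Finset.sum_congr rfl fun s _ => ?_
    rw [MvPolynomial.aeval_monomial]
    congr 1
    rw [Finsupp.prod, Finsupp.prod, map_prod]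
    exact Finset.prod_congr rfl fun v _ => by rw [map_pow]
  unfold fm
  rw [h1, map_sum, map_sum, map_sum, map_sum]
  refine Finset.sum_congr rfl fun s _ => ?_
  rw [MvPolynomial.aeval_monomial, coeff_C_mul, coeff_cx]
  have h2 : (algebraMap ℚ ℚ⟦X⟧) (φ (P.coeff s)) = C (φ (P.coeff s)) := rfl
  rw [h2, coeff_C_mul]
  have h3 : P.coeff s * ((coeff m (s.prod fun v e => y v ^ e) : ℚ) : ℂ) =
      (coeff m (s.prod fun v e => y v ^ e) : ℚ) • P.coeff s := by
    rw [Algebra.smul_def, mul_comm]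
    rfl
  rw [h3, map_smul, smul_eq_mul, mul_comm]

end descent

/-- the values of a power series at the real points determine it -/
theorem ou_real {C : ℝ} (hC : 0 ≤ C) {f : PowerSeries ℂ} (hf : f ∈ Cw C) {τ : ℝ} (h : ∀ t : ℝ, τ < t → ou f (t : ℂ) = 0) : f = 0 := by
  set a : ℝ := max τ C + 1 with ha
  have haC : C < ‖((a : ℝ) : ℂ)‖ := by
    rw [Complex.norm_real, Real.norm_eq_abs]
    refine lt_of_lt_of_le ?_ (le_abs_self _)
    have := le_max_right τ C
    linarith
  refine ou_inj hC hf haC ?_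
  have han : AnalyticAt ℂ (ou f) ((a : ℝ) : ℂ) := ou_an hC hf _ haC
  refine han.frequently_zero_iff_eventually_zero.1 ?_
  let u : ℕ → ℂ := fun n => ((a + 1 / ((n : ℝ) + 1) : ℝ) : ℂ)
  have hu : Tendsto u atTop (𝓝[≠] ((a : ℝ) : ℂ)) := by
    rw [tendsto_nhdsWithin_iff]
    refine ⟨?_, Eventually.of_forall fun n => ?_⟩
    · have h1 : Tendsto (fun n : ℕ => (a + 1 / ((n : ℝ) + 1) : ℝ)) atTop (𝓝 (a + 0)) :=
        tendsto_const_nhds.add tendsto_one_div_add_atTop_nhds_zero_nat
      rw [add_zero] at h1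
      exact (Complex.continuous_ofReal.tendsto _).comp h1
    · show u n ≠ _
      intro h1
      have h2 : (a + 1 / ((n : ℝ) + 1) : ℝ) = a := Complex.ofReal_injective h1
      have h3 : (0 : ℝ) < 1 / ((n : ℝ) + 1) := by positivity
      linarith
  refine hu.frequently (Eventually.frequently (Eventually.of_forall fun n => ?_))
  refine h _ ?_
  have h3 : (0 : ℝ) < 1 / ((n : ℝ) + 1) := by positivity
  have := le_max_left τ C
  linarith

/-- `F F`, `F G`, `F θF` -/
noncomputable def q3 : Fin 3 → MvPolynomial (Fin 4) ℂ :=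
  ![MvPolynomial.X 0 * MvPolynomial.X 0, MvPolynomial.X 0 * MvPolynomial.X 1, MvPolynomial.X 0 * MvPolynomial.X 2]

theorem q3_deg (j : Fin 3) : (q3 j).totalDegree ≤ 2 := by
  have h1 : ∀ a b : Fin 4, (MvPolynomial.X a * MvPolynomial.X b : MvPolynomial (Fin 4) ℂ).totalDegree ≤ 2 := by
    intro a b
    refine (MvPolynomial.totalDegree_mul _ _).trans ?_
    rw [MvPolynomial.totalDegree_X, MvPolynomial.totalDegree_X]
  fin_cases j
  · exact h1 0 0
  · exact h1 0 1
  · exact h1 0 2

/-- the second index -/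
def q3i : Fin 3 → Fin 4 := ![0, 1, 2]

theorem q3_eq (j : Fin 3) : q3 j = MvPolynomial.X 0 * MvPolynomial.X (q3i j) := by
  fin_cases j <;> rfl

/-- the products as power series -/
noncomputable def yS (s : Bool) (o : Option (Fin 3)) : ℚ⟦X⟧ := o.elim X fun j => hS s 0 * hS s (q3i j)

theorem hS_size (s : Bool) : ∃ C : ℝ, 0 ≤ C ∧ ∀ j m, |((coeff m (hS s j) : ℚ) : ℝ)| ≤ C ^ (m + 1) := by
  obtain ⟨C₁, hC₁⟩ := (famJ s (b := 2) le_rfl 0).1
  refine ⟨|C₁|, abs_nonneg _, fun j m => (hC₁ j m).trans ?_⟩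
  rw [← abs_pow]
  exact le_abs_self _

/-- the sign as a rational number -/
def sq (s : Bool) : ℚ := if s then 1 else -1

theorem sq_mul (s : Bool) : sq s * sq s = 1 := by cases s <;> norm_num [sq]

theorem hS_eq (s : Bool) (j : Fin 4) : hS s j = rescale (sq s) (hJ j) := by
  cases s
  · show (if false = true then hJ j else rescale (-1 : ℚ) (hJ j)) = rescale (sq false) (hJ j)
    simp [sq]
  · show (if true = true then hJ j else rescale (-1 : ℚ) (hJ j)) = rescale (sq true) (hJ j)
    simp [sq]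

theorem rescale_hS (s : Bool) (j : Fin 4) : rescale (sq s) (hS s j) = hJ j := by
  rw [hS_eq, rescale_rescale, sq_mul, rescale_one]
  rfl

/-- the products and `X` are algebraically independent -/
theorem alg_ind (s : Bool) (P : MvPolynomial (Option (Fin 3)) ℚ) (hP : MvPolynomial.aeval (yS s) P = 0) : P = 0 := by
  -- the relation as a relation of the four functions
  let w : Option (Fin 3) → MvPolynomial (Fin 4) (Polynomial ℚ) := fun o =>
    o.elim (MvPolynomial.C (Polynomial.C (sq s) * Polynomial.X)) fun j => MvPolynomial.X 0 * MvPolynomial.X (q3i j)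
  have hcomp : ∀ (A : Type) [CommRing A] [Algebra ℚ A] (f : Polynomial ℚ →+* A) (hf : ∀ c : ℚ, f (Polynomial.C c) = algebraMap ℚ A c)
      (y : Fin 4 → A), MvPolynomial.eval₂ f y (MvPolynomial.aeval w P) =
        MvPolynomial.aeval (fun o : Option (Fin 3) => o.elim (algebraMap ℚ A (sq s) * f Polynomial.X) fun j => y 0 * y (q3i j)) P := by
    intro A _ _ f hf y
    have h2 : ∀ P : MvPolynomial (Option (Fin 3)) ℚ, MvPolynomial.eval₂ f y (MvPolynomial.aeval w P) =
        MvPolynomial.aeval (fun o : Option (Fin 3) => o.elim (algebraMap ℚ A (sq s) * f Polynomial.X) fun j => y 0 * y (q3i j)) P := by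
      intro P
      induction P using MvPolynomial.induction_on with
      | C a =>
        rw [MvPolynomial.algHom_C, MvPolynomial.algHom_C]
        have h3 : (algebraMap ℚ (MvPolynomial (Fin 4) (Polynomial ℚ))) a = MvPolynomial.C (Polynomial.C a) := rfl
        rw [h3, MvPolynomial.eval₂_C, hf]
      | add p q hp hq => rw [map_add, MvPolynomial.eval₂_add, hp, hq, map_add]
      | mul_X p o hp =>
        rw [map_mul, MvPolynomial.eval₂_mul, hp, map_mul, MvPolynomial.aeval_X, MvPolynomial.aeval_X]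
        congr 1
        rcases o with _ | j
        · show MvPolynomial.eval₂ f y (MvPolynomial.C (Polynomial.C (sq s) * Polynomial.X)) = _
          rw [MvPolynomial.eval₂_C, map_mul, hf]
          rfl
        · show MvPolynomial.eval₂ f y (MvPolynomial.X 0 * MvPolynomial.X (q3i j)) = _
          rw [MvPolynomial.eval₂_mul, MvPolynomial.eval₂_X, MvPolynomial.eval₂_X]
          rfl
    exact h2 P
  have h0 : MvPolynomial.aeval hJ (MvPolynomial.aeval w P) = 0 := by
    have h1 := hcomp ℚ⟦X⟧ (algebraMap (Polynomial ℚ) ℚ⟦X⟧) (fun c => by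
      have h3 : (algebraMap (Polynomial ℚ) ℚ⟦X⟧) (Polynomial.C c) = ((Polynomial.C c : Polynomial ℚ) : ℚ⟦X⟧) := rfl
      rw [h3, Polynomial.coe_C]
      rfl) hJ
    have h2 : MvPolynomial.aeval hJ (MvPolynomial.aeval w P) =
        MvPolynomial.eval₂ (algebraMap (Polynomial ℚ) ℚ⟦X⟧) hJ (MvPolynomial.aeval w P) := rfl
    rw [h2, h1]
    have h3 := congrArg (rescale (sq s)) hP
    rw [map_zero] at h3
    rw [← h3]
    have h4 : ∀ P : MvPolynomial (Option (Fin 3)) ℚ, rescale (sq s) (MvPolynomial.aeval (yS s) P) =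
        MvPolynomial.aeval (fun o => rescale (sq s) (yS s o)) P := by
      intro P
      induction P using MvPolynomial.induction_on with
      | C a =>
        rw [MvPolynomial.algHom_C, MvPolynomial.algHom_C]
        have h5 : (algebraMap ℚ ℚ⟦X⟧) a = C a := rfl
        rw [h5]
        ext m
        rw [coeff_rescale, coeff_C]
        split_ifs with hm
        · rw [hm, pow_zero, one_mul]
        · rw [mul_zero]
      | add p q hp hq => rw [map_add, map_add, map_add, hp, hq]
      | mul_X p o hp => rw [map_mul, map_mul, map_mul, hp, MvPolynomial.aeval_X, MvPolynomial.aeval_X]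
    rw [h4]
    congr 1
    congr 1
    funext o
    rcases o with _ | j
    · show algebraMap ℚ ℚ⟦X⟧ (sq s) * (algebraMap (Polynomial ℚ) ℚ⟦X⟧) Polynomial.X = rescale (sq s) X
      have h5 : (algebraMap (Polynomial ℚ) ℚ⟦X⟧) Polynomial.X = ((Polynomial.X : Polynomial ℚ) : ℚ⟦X⟧) := rfl
      rw [rescale_X, h5, Polynomial.coe_X]
      rfl
    · show hJ 0 * hJ (q3i j) = rescale (sq s) (hS s 0 * hS s (q3i j))
      rw [map_mul, rescale_hS, rescale_hS]
  have h1 : ∀ (x : ℂ) (y : Fin 4 → ℂ), y ∈ Pool.Agent.Y120.A.Q4 →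
      MvPolynomial.aeval (fun o : Option (Fin 3) => o.elim (((sq s : ℚ) : ℂ) * x) fun j => y 0 * y (q3i j)) P = 0 := by
    intro x y hy
    have h2 := Pool.Agent.Y120.A.hvcj x y hy _ h0
    have h3 := hcomp ℂ (Polynomial.aeval x : Polynomial ℚ →ₐ[ℚ] ℂ).toRingHom (fun c => by simp) y
    rw [h3] at h2
    refine Eq.trans ?_ h2
    congr 1
    congr 1
    funext o
    rcases o with _ | j
    · show _ = algebraMap ℚ ℂ (sq s) * (Polynomial.aeval x : Polynomial ℚ →ₐ[ℚ] ℂ) Polynomial.X
      rw [Polynomial.aeval_X]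
      rfl
    · rfl
  refine MvPolynomial.map_injective (algebraMap ℚ ℂ) (algebraMap ℚ ℂ).injective ?_
  rw [map_zero]
  refine MvPolynomial.funext_set (fun o : Option (Fin 3) => o.elim Set.univ fun j => {z : ℂ | z ≠ 0}) ?_ ?_
  · rintro (_ | j)
    · exact Set.infinite_univ
    · show ({z : ℂ | z ≠ 0}).Infinite
      intro hfin
      have h2 : ({z : ℂ | z ≠ 0})ᶜ.Finite := by
        refine Set.Subsingleton.finite ?_
        intro w hw w' hw'
        simp only [Set.mem_compl_iff, Set.mem_ofPred_eq, not_not] at hw hw'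
        rw [hw, hw']
      exact Set.infinite_univ (α := ℂ) (by
        rw [← Set.union_compl_self {z : ℂ | z ≠ 0}]
        exact hfin.union h2)
  · intro x hx
    rw [map_zero, MvPolynomial.eval_map]
    have hx0 : x (some 0) ≠ 0 := hx (some 0) (Set.mem_univ _)
    obtain ⟨y₀, hy₀⟩ : ∃ y : ℂ, y * y = x (some 0) := by
      obtain ⟨y, hy⟩ := IsAlgClosed.exists_pow_nat_eq (x (some 0)) (n := 2) (by norm_num)
      exact ⟨y, by rw [← hy, pow_two]⟩
    have hy0 : y₀ ≠ 0 := by
      rintro rfl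
      rw [mul_zero] at hy₀
      exact hx0 hy₀.symm
    have h2 := h1 (((sq s : ℚ) : ℂ) * x none) ![y₀, x (some 1) / y₀, x (some 2) / y₀, (1 + x (some 2) / y₀ * (x (some 1) / y₀)) / y₀]
      ⟨hy0, by
        show y₀ * ((1 + x (some 2) / y₀ * (x (some 1) / y₀)) / y₀) - x (some 2) / y₀ * (x (some 1) / y₀) = 1
        field_simp
        ring⟩
    refine Eq.trans ?_ h2
    rw [MvPolynomial.aeval_def]
    congr 1
    funext o
    rcases o with _ | j
    · show x none = ((sq s : ℚ) : ℂ) * (((sq s : ℚ) : ℂ) * x none)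
      rw [← mul_assoc]
      have h5 : ((sq s : ℚ) : ℂ) * ((sq s : ℚ) : ℂ) = 1 := by exact_mod_cast congrArg (fun x : ℚ => (x : ℂ)) (sq_mul s)
      rw [h5, one_mul]
    · fin_cases j
      · exact hy₀.symm
      · show x (some 1) = y₀ * (x (some 1) / y₀)
        field_simp
      · show x (some 2) = y₀ * (x (some 2) / y₀)
        field_simp

/-- the values of the products -/
noncomputable def pV (s : Bool) (t : ℝ) (j : Fin 3) : ℂ := MvPolynomial.aeval (p1 (hS s) t) (MvPolynomial.rename some (q3 j))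

theorem pV_eq (s : Bool) (t : ℝ) (j : Fin 3) :
    pV s t j = p1 (hS s) t (some 0) * p1 (hS s) t (some (q3i j)) := by
  unfold pV
  rw [q3_eq, map_mul, MvPolynomial.rename_X, MvPolynomial.rename_X, map_mul, MvPolynomial.aeval_X, MvPolynomial.aeval_X]

/-- **density** -/
theorem dnV (s : Bool) (τ : ℝ) (P : MvPolynomial (Option (Fin 3)) ℂ)
    (hP : ∀ t : ℝ, τ < t → MvPolynomial.eval (fun o => o.elim (1 / (t : ℂ)) (pV s t)) P = 0) : P = 0 := by
  obtain ⟨C, hC, hh⟩ := hS_size s
  have hhm : ∀ j, cx (hS s j) ∈ Cw C := fun j => cx_mem hC (hh j)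
  have hy : ∀ o, cx (yS s o) ∈ Cw C := by
    rintro (_ | j)
    · show cx X ∈ Cw C
      rw [cx, map_X]
      exact X_mem
    · show cx (hS s 0 * hS s (q3i j)) ∈ Cw C
      rw [map_mul]
      exact (Cw C).mul_mem (hhm _) (hhm _)
  have hval : ∀ Q : MvPolynomial (Option (Fin 3)) ℂ, MvPolynomial.aeval (fun v => cx (yS s v)) Q ∈ Cw C ∧
      ∀ t : ℝ, C < t → ou (MvPolynomial.aeval (fun v => cx (yS s v)) Q) (t : ℂ) =
        MvPolynomial.eval (fun o => o.elim (1 / (t : ℂ)) (pV s t)) Q := by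
    intro Q
    have hnt : ∀ t : ℝ, C < t → C < ‖((t : ℝ) : ℂ)‖ := by
      intro t ht
      rw [Complex.norm_real, Real.norm_eq_abs]
      exact lt_of_lt_of_le ht (le_abs_self _)
    induction Q using MvPolynomial.induction_on with
    | C a =>
      rw [MvPolynomial.algHom_C]
      have h3 : (algebraMap ℂ (PowerSeries ℂ)) a = PowerSeries.C a := rfl
      rw [h3]
      exact ⟨C_mem a, fun t ht => by rw [ou_C, MvPolynomial.eval_C]⟩
    | add p q hp hq =>
      rw [map_add]
      refine ⟨(Cw C).add_mem hp.1 hq.1, fun t ht => ?_⟩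
      rw [ou_add hC hp.1 hq.1 (hnt t ht), map_add, hp.2 t ht, hq.2 t ht]
    | mul_X p o hp =>
      rw [map_mul, MvPolynomial.aeval_X]
      refine ⟨(Cw C).mul_mem hp.1 (hy o), fun t ht => ?_⟩
      rw [ou_mul hC hp.1 (hy o) (hnt t ht), map_mul, hp.2 t ht, MvPolynomial.eval_X]
      congr 1
      rcases o with _ | j
      · show ou (cx X) (t : ℂ) = 1 / (t : ℂ)
        rw [cx, map_X, ou_X]
      · show ou (cx (hS s 0 * hS s (q3i j))) (t : ℂ) = pV s t j
        rw [map_mul, ou_mul hC (hhm _) (hhm _) (hnt t ht), ou_ev, ou_ev, pV_eq]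
        rfl
  have h0 : MvPolynomial.aeval (fun v => cx (yS s v)) P = 0 := by
    refine ou_real hC (hval P).1 (τ := max τ C) fun t ht => ?_
    rw [(hval P).2 t (lt_of_le_of_lt (le_max_right _ _) ht)]
    exact hP t (lt_of_le_of_lt (le_max_left _ _) ht)
  by_contra hne
  obtain ⟨m, hm⟩ := MvPolynomial.ne_zero_iff.1 hne
  obtain ⟨φ, hφ⟩ : ∃ φ : ℂ →ₗ[ℚ] ℚ, φ (P.coeff m) ≠ 0 := by
    by_contra hall
    push Not at hall
    exact hm ((Module.forall_dual_apply_eq_zero_iff ℚ _).1 hall)
  have h1 : fm φ P = 0 := by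
    refine alg_ind s _ ?_
    ext l
    rw [fm_aeval, h0, map_zero, map_zero, map_zero]
  apply hφ
  rw [← fm_coeff, h1, MvPolynomial.coeff_zero]

end Pool.Agent.X120.JG
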