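import Pool.Agent.X120.JG.Jet
import Pool.Agent.Y123.GN.E7

/-!
# The points where `j` is a term of a geometric sequence: final forms
-/

set_option autoImplicit false

open Filter Topology

namespace Pool.Agent.X120.JG

open Pool.Agent.Y120.J (si jt M4 E4_same E6_same)
open Pool.Agent.TH21.MS (jj)

section
variable {k : ℕ}

/-- the tuples with a relation between the numbers `z`, `j'(z)`, `j''(z)` -/
def ExJ (δ : ℕ) (V : Submodule ℚ ℂ) (a : Fin k → ℂ) : Prop :=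
  ∃ z : Fin k → UpperHalfPlane, (∀ i, jj (z i) = a i ∨ jj (z i) = -a i) ∧
    ∃ F : MvPolynomial (Fin k × Fin 3) ℂ, F ≠ 0 ∧ F.totalDegree ≤ δ ∧ (∀ u, F.coeff u ∈ V) ∧
      MvPolynomial.eval (fun v => jt (z v.1) v.2) F = 0

/-- the tuples with a relation between isogenous points -/
def ExI (δ : ℕ) (V : Submodule ℚ ℂ) (a : Fin k → ℂ) : Prop :=
  ∃ (z : Fin k → ℂ) (w : Fin k → UpperHalfPlane), (∀ i, jj (w i) = a i ∨ jj (w i) = -a i) ∧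
    (∀ i, ∃ g : M4, z i * (g.c * w i + g.d) = g.a * w i + g.b) ∧
    ∃ F : MvPolynomial (Fin k) ℂ, F ≠ 0 ∧ F.totalDegree ≤ δ ∧ (∀ u, F.coeff u ∈ V) ∧ MvPolynomial.eval z F = 0

theorem sign_ex {ι : Type} (x a : ι → ℂ) (h : ∀ i, x i = a i ∨ x i = -a i) : ∃ s : ι → Bool, ∀ i, x i = si (s i) * a i := by
  classical
  refine ⟨fun i => decide (x i = a i), fun i => ?_⟩
  unfold si
  by_cases h1 : x i = a i
  · simp [h1]
  · have h2 := (h i).resolve_left h1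
    simp [h1]
    exact h2

theorem jetN (k δ D : ℕ) {b : Fin k → ℕ} (hb : ∀ i, 2 ≤ b i) :
    ∃ C : ℝ, 0 ≤ C ∧ ∀ (V : Submodule ℚ ℂ) [Module.Finite ℚ V], Module.finrank ℚ V ≤ D →
      ∀ T : ℕ, 2 ≤ T →
      (({t : Fin k → ℕ | (∀ i, 1 ≤ t i ∧ t i ≤ T) ∧ ExJ δ V fun i => (b i : ℂ) ^ t i}.ncard : ℕ) : ℝ) * T ≤
        C * (T : ℝ) ^ k * Real.log T := by
  choose C hC h1 using fun s => jetS k δ D s hb
  refine ⟨∑ s, C s, Finset.sum_nonneg fun s _ => hC s, ?_⟩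
  intro V _ hV T hT
  set S := {t : Fin k → ℕ | (∀ i, 1 ≤ t i ∧ t i ≤ T) ∧ ExJ δ V fun i => (b i : ℂ) ^ t i} with hS
  have hfin : S.Finite := by
    refine (Set.finite_Iic (fun _ : Fin k => T)).subset ?_
    intro t ht i
    exact (ht.1 i).2
  rw [Set.ncard_eq_toFinset_card S hfin]
  refine signs_sum (b := b) T (fun s t => (∀ i, 1 ≤ t i ∧ t i ≤ T) ∧ ∃ z : Fin k → UpperHalfPlane,
    (∀ i, jj (z i) = si (s i) * ((b i : ℂ) ^ t i)) ∧
        ∃ F : MvPolynomial (Fin k × Fin 3) ℂ, F ≠ 0 ∧ F.totalDegree ≤ δ ∧ (∀ u, F.coeff u ∈ V) ∧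
          MvPolynomial.eval (fun v => jt (z v.1) v.2) F = 0) _ (fun t ht => ?_) fun s S' _ hS' => h1 s V hV T hT S' hS'
  obtain ⟨hbox, z, hz, hF⟩ := hfin.mem_toFinset.1 ht
  obtain ⟨s, hs⟩ := sign_ex (fun i => jj (z i)) _ hz
  exact ⟨s, hbox, z, hs, hF⟩

theorem isoN (k δ D : ℕ) {b : Fin k → ℕ} (hb : ∀ i, 2 ≤ b i) :
    ∃ C : ℝ, 0 ≤ C ∧ ∀ (V : Submodule ℚ ℂ) [Module.Finite ℚ V], Module.finrank ℚ V ≤ D →
      ∀ T : ℕ, 2 ≤ T →
      (({t : Fin k → ℕ | (∀ i, 1 ≤ t i ∧ t i ≤ T) ∧ ExI δ V fun i => (b i : ℂ) ^ t i}.ncard : ℕ) : ℝ) * T ≤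
        C * (T : ℝ) ^ k * Real.log T := by
  choose C hC h1 using fun s => isoS k δ D s hb
  refine ⟨∑ s, C s, Finset.sum_nonneg fun s _ => hC s, ?_⟩
  intro V _ hV T hT
  set S := {t : Fin k → ℕ | (∀ i, 1 ≤ t i ∧ t i ≤ T) ∧ ExI δ V fun i => (b i : ℂ) ^ t i} with hS
  have hfin : S.Finite := by
    refine (Set.finite_Iic (fun _ : Fin k => T)).subset ?_
    intro t ht i
    exact (ht.1 i).2
  rw [Set.ncard_eq_toFinset_card S hfin]
  refine signs_sum (b := b) T (fun s t => (∀ i, 1 ≤ t i ∧ t i ≤ T) ∧ ∃ (z : Fin k → ℂ) (w : Fin k → UpperHalfPlane),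
    (∀ i, jj (w i) = si (s i) * ((b i : ℂ) ^ t i)) ∧ (∀ i, ∃ g : M4, z i * (g.c * w i + g.d) = g.a * w i + g.b) ∧
        ∃ F : MvPolynomial (Fin k) ℂ, F ≠ 0 ∧ F.totalDegree ≤ δ ∧ (∀ u, F.coeff u ∈ V) ∧
          MvPolynomial.eval z F = 0) _ (fun t ht => ?_) fun s S' _ hS' => h1 s V hV T hT S' hS'
  obtain ⟨hbox, z, w, hz, hF⟩ := hfin.mem_toFinset.1 ht
  obtain ⟨s, hs⟩ := sign_ex (fun i => jj (w i)) _ hz
  exact ⟨s, hbox, z, w, hs, hF⟩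

/-- from fixed parameters to growing parameters -/
theorem grow {N : ℕ → (T : ℕ) → ℝ} {C : ℕ → ℝ} (hN : ∀ D T, 2 ≤ T → N D T * T ≤ C D * (T : ℝ) ^ k * Real.log T) :
    ∃ (M : ℕ → ℕ) (ε : ℕ → ℝ), Tendsto M atTop atTop ∧ Tendsto ε atTop (nhds 0) ∧
      ∀ T : ℕ, 2 ≤ T → N (M T) T ≤ ε T * (T : ℝ) ^ k := by
  obtain ⟨M, hM, hε⟩ := Pool.Agent.Y123.GN.diag_seq (fun D T => C D * (Real.log T / T)) (by
      intro D
      have h1 : Tendsto (fun N : ℕ => Real.log N / N) atTop (nhds 0) :=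
        (Real.isLittleO_log_id_atTop.tendsto_div_nhds_zero).comp tendsto_natCast_atTop_atTop
      have h5 := h1.const_mul (C D)
      rw [mul_zero] at h5
      exact h5)
  refine ⟨M, _, hM, hε, ?_⟩
  intro T hT
  have h1 := hN (M T) T hT
  have hT0 : (0 : ℝ) < T := by
    have : 0 < T := by omega
    exact_mod_cast this
  have h2 : N (M T) T * T ≤ (C (M T) * (Real.log T / T) * (T : ℝ) ^ k) * T := by
    refine h1.trans (le_of_eq ?_)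
    field_simp
  exact le_of_mul_le_mul_right h2 hT0

end

end Pool.Agent.X120.JG
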