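import Pool.Agent.X120.GS.Frb4
import Pool.Agent.Y119.J.Gen

/-!
# The equation of the modular invariant at infinity
-/

set_option autoImplicit false

open PowerSeries Pool.Agent.Y113 Pool.Agent.Y120.GF Pool.Agent.Y120.GH Pool.Agent.Y119.HZ

namespace Pool.Agent.X120.JG

/-- `(1 - c X) ^ 2` -/
noncomputable def Tc (c : ℤ) : Polynomial ℤ := (1 - Polynomial.C c * Polynomial.X) ^ 2

/-- `X (82944 X - a)` -/
noncomputable def Qc (a : ℤ) : Polynomial ℤ := Polynomial.X * (82944 * Polynomial.X - Polynomial.C a)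

theorem A3_eq (T Q : Polynomial ℤ) (a c : Fin (2 * 2)) :
    A3 T (![![0, T], ![Q, 0]] : Fin 2 → Fin 2 → Polynomial ℤ) (![![0, 1], ![0, 0]] : Fin 2 → Fin 2 → ℤ) (ix 2 a) (ix 2 c) =
      (![![0, 0, T, 0], ![-T, 0, 0, T], ![Q, 0, 0, 0], ![0, Q, -T, 0]] : Fin 4 → Fin 4 → Polynomial ℤ) a c := by
  have h0 : ix 2 0 = (0, 0) := rfl
  have h1 : ix 2 1 = (0, 1) := rfl
  have h2 : ix 2 2 = (1, 0) := rfl
  have h3 : ix 2 3 = (1, 1) := rfl
  fin_cases a <;> fin_cases c <;> simp [A3, h0, h1, h2, h3]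

theorem Tc_eq (c : ℤ) : Tc c = Polynomial.C 1 * Polynomial.X ^ 0 + Polynomial.C (-2 * c) * Polynomial.X ^ 1 +
    Polynomial.C (c ^ 2) * Polynomial.X ^ 2 := by
  unfold Tc
  simp only [map_mul, map_pow, map_neg, map_one, Polynomial.C_ofNat]
  ring

theorem Qc_eq (a : ℤ) : Qc a = Polynomial.C (-a) * Polynomial.X ^ 1 + Polynomial.C 82944 * Polynomial.X ^ 2 := by
  unfold Qc
  simp only [map_neg, Polynomial.C_ofNat]
  ring

theorem XTc_eq (c : ℤ) : Polynomial.X * Tc c = Polynomial.C 1 * Polynomial.X ^ 1 + Polynomial.C (-2 * c) * Polynomial.X ^ 2 +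
    Polynomial.C (c ^ 2) * Polynomial.X ^ 3 := by
  rw [Tc_eq]
  ring

/-- the reflected polynomial -/
noncomputable def Rc (c : ℤ) : Polynomial ℤ := (Polynomial.X - Polynomial.C c) ^ 2

theorem XTc_reflect (c : ℤ) : (Polynomial.X * Tc c).reflect 3 = Rc c := by
  rw [XTc_eq, Polynomial.reflect_add, Polynomial.reflect_add, Polynomial.reflect_C_mul_X_pow, Polynomial.reflect_C_mul_X_pow,
    Polynomial.reflect_C_mul_X_pow, Polynomial.revAt_le (by norm_num), Polynomial.revAt_le (by norm_num),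
    Polynomial.revAt_le (by norm_num)]
  unfold Rc
  simp only [map_mul, map_pow, map_neg, map_one, Polynomial.C_ofNat]
  norm_num
  ring

theorem Tc_reflect (c : ℤ) : (Tc c).reflect 3 = Polynomial.X * Rc c := by
  rw [Tc_eq, Polynomial.reflect_add, Polynomial.reflect_add, Polynomial.reflect_C_mul_X_pow, Polynomial.reflect_C_mul_X_pow,
    Polynomial.reflect_C_mul_X_pow, Polynomial.revAt_le (by norm_num), Polynomial.revAt_le (by norm_num),
    Polynomial.revAt_le (by norm_num)]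
  unfold Rc
  simp only [map_mul, map_pow, map_neg, map_one, Polynomial.C_ofNat]
  norm_num
  ring

theorem Qc_reflect (a : ℤ) : (Qc a).reflect 3 = Polynomial.X * (Polynomial.C 82944 - Polynomial.C a * Polynomial.X) := by
  rw [Qc_eq, Polynomial.reflect_add, Polynomial.reflect_C_mul_X_pow, Polynomial.reflect_C_mul_X_pow,
    Polynomial.revAt_le (by norm_num), Polynomial.revAt_le (by norm_num)]
  simp only [map_neg, Polynomial.C_ofNat]
  norm_num
  ring

theorem Tc_deg (c : ℤ) : (Tc c).natDegree ≤ 3 := by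
  rw [Tc_eq]
  compute_degree
  norm_num

theorem XTc_deg (c : ℤ) : (Polynomial.X * Tc c).natDegree ≤ 3 := by
  rw [XTc_eq]
  compute_degree

theorem Qc_deg (c : ℤ) : (Qc c).natDegree ≤ 3 := by
  rw [Qc_eq]
  compute_degree
  norm_num

/-- the geometric series -/
noncomputable def geo (c : ℂ) : PowerSeries ℂ := PowerSeries.mk fun m => 1 / c ^ (m + 1)

theorem geo_mul {c : ℂ} (hc : c ≠ 0) : (C c - X) * geo c = 1 := by
  ext m
  rw [sub_mul, map_sub, coeff_C_mul]
  rcases m with _ | m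
  · rw [coeff_zero_X_mul, geo, coeff_mk]
    simp [hc]
  · rw [coeff_succ_X_mul, geo, coeff_mk, coeff_mk, coeff_one, if_neg (Nat.succ_ne_zero m)]
    field_simp
    ring

theorem geo_bd {c : ℂ} (hc : 1 ≤ ‖c‖) (m : ℕ) : ‖coeff m (geo c)‖ ≤ 1 := by
  rw [geo, coeff_mk, norm_div, norm_one, norm_pow]
  exact div_le_one_of_le₀ (one_le_pow₀ hc) (by positivity)

theorem mul_bd {f g : PowerSeries ℂ} {K L : ℝ} (hK : 0 ≤ K) (hL : 1 ≤ L) (hf : ∀ m, ‖coeff m f‖ ≤ K) (hg : ∀ m, ‖coeff m g‖ ≤ L ^ (m + 1))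
    (m : ℕ) : ‖coeff m (f * g)‖ ≤ ((2 * (K + 1) * L)) ^ (m + 1) := by
  rw [coeff_mul]
  have h1 : ∀ p ∈ Finset.HasAntidiagonal.antidiagonal m, ‖coeff p.1 f * coeff p.2 g‖ ≤ K * L ^ (m + 1) := by
    intro p hp
    rw [norm_mul]
    refine mul_le_mul (hf _) ((hg _).trans (pow_le_pow_right₀ hL ?_)) (norm_nonneg _) hK
    have := Finset.HasAntidiagonal.mem_antidiagonal.1 hp
    omega
  refine (norm_sum_le _ _).trans ((Finset.sum_le_sum h1).trans ?_)
  rw [Finset.sum_const, Finset.Nat.card_antidiagonal, nsmul_eq_mul, mul_pow, mul_pow]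
  have h2 : ((m + 1 : ℕ) : ℝ) ≤ 2 ^ (m + 1) := by exact_mod_cast Nat.lt_two_pow_self.le
  have h3 : K ≤ (K + 1) ^ (m + 1) := by
    refine le_trans ?_ (le_self_pow₀ (by linarith) (by omega) : K + 1 ≤ (K + 1) ^ (m + 1))
    linarith
  have h4 : 0 ≤ L ^ (m + 1) := by positivity
  calc ((m + 1 : ℕ) : ℝ) * (K * L ^ (m + 1)) ≤ 2 ^ (m + 1) * ((K + 1) ^ (m + 1) * L ^ (m + 1)) := by gcongr
    _ = _ := by ring

/-- the quotient -/
noncomputable def gQ (a c : ℂ) : PowerSeries ℂ := (C 82944 - C a * X) * (geo c * geo c)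

theorem gQ_bd {a c : ℂ} (hc : 1 ≤ ‖c‖) : ∃ K : ℝ, 1 ≤ K ∧ ∀ m, ‖coeff m (gQ a c)‖ ≤ K ^ (m + 1) := by
  have h1 := fun m => mul_bd (f := geo c) (g := geo c) (K := 1) (L := 1) zero_le_one le_rfl (geo_bd hc) (fun m => by
    rw [one_pow]
    exact geo_bd hc m) m
  norm_num at h1
  have hna : (0 : ℝ) ≤ ‖a‖ := norm_nonneg a
  refine ⟨2 * ((82944 + ‖a‖) + 1) * 4, by linarith, fun m => ?_⟩
  refine mul_bd (K := 82944 + ‖a‖) (L := 4) (by positivity) (by norm_num) (fun m => ?_) h1 m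
  rw [map_sub, coeff_C, coeff_C_mul, coeff_X]
  refine (norm_sub_le _ _).trans (add_le_add ?_ ?_)
  · split_ifs <;> norm_num
  · split_ifs <;> simp

theorem gQ_zero {a c : ℂ} (hc : c ^ 2 = 2985984) : coeff 0 (gQ a c) = 1 / 36 := by
  have hc0 : c ≠ 0 := by
    intro h
    rw [h] at hc
    norm_num at hc
  have h1 : constantCoeff (geo c) = 1 / c := by
    rw [← coeff_zero_eq_constantCoeff_apply, geo, coeff_mk, zero_add, pow_one]
  unfold gQ
  rw [coeff_zero_eq_constantCoeff_apply, map_mul, map_mul, map_sub, map_mul, constantCoeff_C, constantCoeff_C, constantCoeff_X, h1]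
  rw [mul_zero, sub_zero]
  field_simp
  rw [hc]
  norm_num

/-- **The exponents at infinity are rational.** -/
theorem qu_inf {c a : ℤ} (hc : c ^ 2 = 2985984) :
    QU0 (Polynomial.X ^ 2 * (Polynomial.X * Tc c).reflect 3)
      (fun x y : Fin (2 * 2) => - (A3 (Tc c) (![![0, Tc c], ![Qc a, 0]] : Fin 2 → Fin 2 → Polynomial ℤ)
        (![![0, 1], ![0, 0]] : Fin 2 → Fin 2 → ℤ) (ix 2 x) (ix 2 y)).reflect 3) := by
  have hcc : (c : ℂ) ^ 2 = 2985984 := by exact_mod_cast hc
  have hc0 : (c : ℂ) ≠ 0 := by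
    intro h
    rw [h] at hcc
    norm_num at hcc
  have hc1 : 1 ≤ ‖(c : ℂ)‖ := by
    rw [Complex.norm_intCast]
    have h1 : c ≠ 0 := by
      rintro rfl
      norm_num at hc
    have h2 : (1 : ℤ) ≤ |c| := Int.one_le_abs h1
    exact_mod_cast h2
  obtain ⟨K, hK1, hK⟩ := gQ_bd (a := (a : ℂ)) hc1
  set g := gQ (a : ℂ) (c : ℂ) with hg
  have hRg : (X - C (c : ℂ)) ^ 2 * g = C 82944 - C (a : ℂ) * X := by
    have h1 := geo_mul hc0
    rw [hg, gQ]
    linear_combination (C 82944 - C (a : ℂ) * X) * ((C (c : ℂ) - X) * geo c + 1) * h1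
  have cC : ∀ a : ℤ, cxR (Polynomial.C a) = C (a : ℂ) := by
    intro a
    rw [cxR_apply, Polynomial.map_C, Polynomial.coe_C]
    rfl
  have cX : cxR Polynomial.X = (X : PowerSeries ℂ) := by
    rw [cxR_apply, Polynomial.map_X, Polynomial.coe_X]
  have eR : cxR (Rc c) = (X - C (c : ℂ)) ^ 2 := by
    unfold Rc
    rw [map_pow, map_sub, cC, cX]
  refine Pool.Agent.X120.GS.Frb.qu_res (K := K + 1)
    (B := (![![0, 0, -1, 0], ![1, 0, 0, -1], ![-g, 0, 0, 0], ![0, -g, 1, 0]] : Fin 4 → Fin 4 → PowerSeries ℂ)) ?_ (by linarith) ?_ ?_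
  · intro x y
    rw [A3_eq, XTc_reflect, ← cxR_apply, ← cxR_apply]
    have e0 : (0 : Polynomial ℤ).reflect 3 = 0 := Polynomial.reflect_zero
    fin_cases x <;> fin_cases y <;>
      simp only [Fin.zero_eta, Fin.mk_one, Fin.reduceFinMk, Matrix.cons_val', Matrix.cons_val_zero, Matrix.cons_val_one,
        Matrix.cons_val, Matrix.cons_val_fin_one, e0, Tc_reflect, Qc_reflect, Polynomial.reflect_neg, map_neg, map_mul, map_pow, map_sub,
        map_zero, cC, cX, eR, neg_neg, neg_zero, mul_zero] <;>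
      first | ring1 | (linear_combination (-(X ^ 2) : PowerSeries ℂ) * hRg)
  · intro x y m
    have h1 : ∀ k : ℂ, ‖k‖ ≤ 1 → ∀ m, ‖coeff m (C k : PowerSeries ℂ)‖ ≤ (K + 1) ^ (m + 1) := by
      intro k hk m
      have h2 : (1 : ℝ) ≤ (K + 1) ^ (m + 1) := one_le_pow₀ (by linarith)
      rw [coeff_C]
      split_ifs
      · exact hk.trans h2
      · rw [norm_zero]
        linarith
    have hz : ∀ m, ‖coeff m (0 : PowerSeries ℂ)‖ ≤ (K + 1) ^ (m + 1) := fun m => by
      have := h1 0 (by simp) m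
      rwa [map_zero] at this
    have ho : ∀ m, ‖coeff m (1 : PowerSeries ℂ)‖ ≤ (K + 1) ^ (m + 1) := fun m => by
      have := h1 1 (by simp) m
      rwa [map_one] at this
    have hn : ∀ m, ‖coeff m (-1 : PowerSeries ℂ)‖ ≤ (K + 1) ^ (m + 1) := fun m => by
      rw [map_neg, norm_neg]
      exact ho m
    have hgn : ∀ m, ‖coeff m (-g)‖ ≤ (K + 1) ^ (m + 1) := fun m => by
      rw [map_neg, norm_neg]
      exact (hK m).trans (pow_le_pow_left₀ (by linarith) (by linarith) _)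
    fin_cases x <;> fin_cases y <;> first | exact hz m | exact ho m | exact hn m | exact hgn m
  · intro μ v hv0 hv
    have hg0 : coeff 0 g = 1 / 36 := gQ_zero hcc
    have q0 := congrFun hv 0
    have q1 := congrFun hv 1
    have q2 := congrFun hv 2
    have q3 := congrFun hv 3
    have o1 : coeff 0 (1 : PowerSeries ℂ) = 1 := coeff_zero_one
    have e4 : ∀ f : Fin (2 * 2) → ℂ, ∑ x, f x = f 0 + f 1 + f 2 + f 3 := fun f => Fin.sum_univ_four f
    simp only [Matrix.mulVec, dotProduct, Matrix.of_apply, e4, Matrix.cons_val', Matrix.cons_val_zero, Matrix.cons_val_one,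
      Matrix.cons_val, Matrix.cons_val_fin_one, map_neg, map_zero, hg0, o1, Pi.smul_apply, smul_eq_mul] at q0 q1 q2 q3
    have k0 : v 0 * (μ ^ 2 - 1 / 36) = 0 := by linear_combination (-μ) * q0 + q2
    have hfin : μ ^ 2 = 1 / 36 → ∃ q : ℚ, μ = q := by
      intro h
      have h1 : (μ - 1 / 6) * (μ + 1 / 6) = 0 := by linear_combination h
      rcases mul_eq_zero.1 h1 with h2 | h2
      · refine ⟨1 / 6, ?_⟩
        push_cast
        linear_combination h2
      · refine ⟨-(1 / 6), ?_⟩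
        push_cast
        linear_combination h2
    rcases mul_eq_zero.1 k0 with h0 | h0
    · have h2 : v 2 = 0 := by linear_combination -q0 - μ * h0
      have k1 : v 1 * (μ ^ 2 - 1 / 36) = 0 := by linear_combination (-μ) * q1 + q3 + μ * h0 - h2
      rcases mul_eq_zero.1 k1 with h1 | h1
      · exfalso
        have h3 : v 3 = 0 := by linear_combination -q1 - μ * h1 + h0
        apply hv0
        funext i
        fin_cases i
        · exact h0
        · exact h1
        · exact h2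
        · exact h3
      · exact hfin (by linear_combination h1)
    · exact hfin (by linear_combination h0)

end Pool.Agent.X120.JG
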