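import Pool.Agent.X120.JG.Cor

/-!
# The points where `j` is a term of a geometric sequence: counting theorems
-/

set_option autoImplicit false

open Filter Topology

namespace Pool.Agent.X120.JG

open Pool.Agent.X120.GS Pool.Agent.Y120.R
open Pool.Agent.Y120.J (hJ hS si qJ qS pS tpi multi' all_PT jt nK mK nK_deg mK_deg nK_eval mK_eval mm nn e2 ptsS tr_ne M4 nI mI nI_deg mI_deg
  nI_eval mI_eval tr_neI comp Tr Tr_deg Tr_mem Tr_eval)
open Pool.Agent.TH21.MS (jj)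

section
variable {k : ℕ}

/-- a bad set has a large and a small part -/
theorem split_small {b : Fin k → ℕ} (hb : ∀ i, 2 ≤ b i) (w T : ℕ) (hT : 2 ≤ T) {C : ℝ} (S : Finset (Fin k → ℕ))
    (hS : ∀ t ∈ S, ∀ i, 1 ≤ t i ∧ t i ≤ T)
    (h : ∀ S' ⊆ S, (∀ t ∈ S', ∀ i, w < tp b t i) → (S'.card : ℝ) * T ≤ C * (T : ℝ) ^ k * Real.log T) :
    (S.card : ℝ) * T ≤ (C + 2 * (k * (w + 1) : ℕ)) * (T : ℝ) ^ k * Real.log T := by
  classical
  set S₁ := S.filter fun t => ∃ i, tp b t i ≤ w with hS₁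
  set S₂ := S.filter fun t => ¬ ∃ i, tp b t i ≤ w with hS₂
  have hcard : S₁.card + S₂.card = S.card := Finset.card_filter_add_card_filter_not (s := S) (fun t => ∃ i, tp b t i ≤ w)
  have hb₁ : S₁.card ≤ k * (w + 1) * T ^ (k - 1) := smallS hb w T S₁ fun t ht =>
    ⟨hS t (Finset.mem_filter.1 ht).1, (Finset.mem_filter.1 ht).2⟩
  have hb₂ := h S₂ (Finset.filter_subset _ _) fun t ht i => by
    have h1 := (Finset.mem_filter.1 ht).2
    push Not at h1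
    exact h1 i
  have e0 := nrm hT hb₁
  have e1 : (S.card : ℝ) = S₁.card + S₂.card := by exact_mod_cast hcard.symm
  rw [e1]
  calc ((S₁.card : ℝ) + S₂.card) * T = S₁.card * T + S₂.card * T := by ring
    _ ≤ 2 * (k * (w + 1) : ℕ) * (T : ℝ) ^ k * Real.log T + C * (T : ℝ) ^ k * Real.log T := add_le_add e0 hb₂
    _ = _ := by ring

/-- **The numbers `z`, `j'(z)`, `j''(z)`** at the points with `j(z i) = ± b i ^ t i`, given signs. -/
theorem jetS (k δ D : ℕ) (s : Fin k → Bool) {b : Fin k → ℕ} (hb : ∀ i, 2 ≤ b i) :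
    ∃ C : ℝ, 0 ≤ C ∧ ∀ (V : Submodule ℚ ℂ) [Module.Finite ℚ V], Module.finrank ℚ V ≤ D →
      ∀ T : ℕ, 2 ≤ T → ∀ S : Finset (Fin k → ℕ),
      (∀ t ∈ S, (∀ i, 1 ≤ t i ∧ t i ≤ T) ∧ ∃ z : Fin k → UpperHalfPlane, (∀ i, jj (z i) = si (s i) * ((b i : ℂ) ^ t i)) ∧
        ∃ F : MvPolynomial (Fin k × Fin 3) ℂ, F ≠ 0 ∧ F.totalDegree ≤ δ ∧ (∀ u, F.coeff u ∈ V) ∧
          MvPolynomial.eval (fun v => jt (z v.1) v.2) F = 0) →
      (S.card : ℝ) * T ≤ C * (T : ℝ) ^ k * Real.log T := by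
  classical
  choose T₀ hT₀ using all_PT
  obtain ⟨w₀, hw₀⟩ := exists_nat_ge (max (max (T₀ true) (T₀ false)) 1)
  set d : ℕ := Fintype.card (Fin k × Fin 3) * (δ * 8) with hd
  obtain ⟨C, hC, h1⟩ := noZ k d D s hb
  refine ⟨C + 2 * (k * (w₀ + 1) : ℕ), by positivity, ?_⟩
  intro V _ hV T hT S hS
  refine split_small hb w₀ T hT S (fun t ht => (hS t ht).1) fun S' hS' hbig => ?_
  refine h1 V hV T hT S' fun t ht => ?_
  obtain ⟨hbox, z, hz, F, hF0, hFd, hFV, hFz⟩ := hS t (hS' ht)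
  have hti : ∀ i, T₀ (s i) ≤ (tp b t i : ℝ) := by
    intro i
    have h2 : (w₀ : ℝ) < tp b t i := by exact_mod_cast hbig t ht i
    have h4 : max (max (T₀ true) (T₀ false)) 1 ≤ (tp b t i : ℝ) := hw₀.trans h2.le
    cases s i
    · exact ((le_max_right _ _).trans (le_max_left _ _)).trans h4
    · exact ((le_max_left _ _).trans (le_max_left _ _)).trans h4
  have hti0 : ∀ i, si (s i) * (tp b t i : ℤ) ≠ 0 := by
    intro i
    have h2 := tp_pos hb t i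
    have h3 : (tp b t i : ℤ) ≠ 0 := by omega
    refine mul_ne_zero ?_ h3
    unfold si
    split_ifs <;> norm_num
  have hcast : ∀ i, (b i : ℂ) ^ t i = ((tp b t i : ℕ) : ℂ) := by
    intro i
    show _ = ((b i ^ t i : ℕ) : ℂ)
    push_cast
    rfl
  have hpt := fun i => hT₀ (s i) (tp b t i) (z i) (hti i) (by rw [hz i, hcast i]; push_cast; rfl)
  choose γ w hγ hZ0 hw hd1 hd2 using hpt
  have hpts : ∀ i, (∀ j, e2 (pS (s i) (tp b t i)) (mm (γ i 1 0) (γ i 1 1) j) ≠ 0) ∧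
      ∀ j, jt (z i) j = e2 (pS (s i) (tp b t i)) (nn (γ i 0 0) (γ i 0 1) (γ i 1 0) (γ i 1 1) (si (s i) * tp b t i) j) /
        e2 (pS (s i) (tp b t i)) (mm (γ i 1 0) (γ i 1 1) j) := fun i =>
    ptsS (t := si (s i) * (tp b t i : ℤ)) (hZ0 i) (hw i) (by rw [hd1 i]; push_cast; ring)
      (by rw [hd2 i]; push_cast; ring) (γ i) (hγ i)
  refine ⟨hbox, Tr δ (nK γ fun i => si (s i) * (tp b t i : ℤ)) (mK γ) F, fun h0 => ?_, Tr_deg (nK_deg γ _) (mK_deg γ) hFd,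
    Tr_mem hFV, ?_⟩
  · exact hF0 (tr_ne hFd γ (fun i => si (s i) * (tp b t i : ℤ)) hti0 h0)
  · rw [Tr_eval hFd (fun v : Σ _ : Fin k, Fin 3 => pS (s v.1) (tp b t v.1) v.2) fun v => by
      rw [mK_eval γ (fun i => pS (s i) (tp b t i))]
      exact (hpts v.1).1 v.2]
    have e1 : (fun v : Fin k × Fin 3 => MvPolynomial.eval₂ (Int.castRingHom ℂ)
        (fun v : Σ _ : Fin k, Fin 3 => pS (s v.1) (tp b t v.1) v.2)
        (nK γ (fun i => si (s i) * (tp b t i : ℤ)) v) / MvPolynomial.eval₂ (Int.castRingHom ℂ)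
        (fun v : Σ _ : Fin k, Fin 3 => pS (s v.1) (tp b t v.1) v.2) (mK γ v)) = fun v => jt (z v.1) v.2 := by
      funext v
      rw [mK_eval γ (fun i => pS (s i) (tp b t i)), nK_eval γ _ (fun i => pS (s i) (tp b t i)), (hpts v.1).2 v.2]
    rw [e1, hFz, mul_zero]

/-- **Isogeny classes**: the points isogenous to points with `j = ± b i ^ t i`, given signs. -/
theorem isoS (k δ D : ℕ) (s : Fin k → Bool) {b : Fin k → ℕ} (hb : ∀ i, 2 ≤ b i) :
    ∃ C : ℝ, 0 ≤ C ∧ ∀ (V : Submodule ℚ ℂ) [Module.Finite ℚ V], Module.finrank ℚ V ≤ D →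
      ∀ T : ℕ, 2 ≤ T → ∀ S : Finset (Fin k → ℕ),
      (∀ t ∈ S, (∀ i, 1 ≤ t i ∧ t i ≤ T) ∧ ∃ (z : Fin k → ℂ) (w : Fin k → UpperHalfPlane),
        (∀ i, jj (w i) = si (s i) * ((b i : ℂ) ^ t i)) ∧ (∀ i, ∃ g : M4, z i * (g.c * w i + g.d) = g.a * w i + g.b) ∧
        ∃ F : MvPolynomial (Fin k) ℂ, F ≠ 0 ∧ F.totalDegree ≤ δ ∧ (∀ u, F.coeff u ∈ V) ∧ MvPolynomial.eval z F = 0) →
      (S.card : ℝ) * T ≤ C * (T : ℝ) ^ k * Real.log T := by
  classical
  choose T₀ hT₀ using all_PT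
  obtain ⟨w₀, hw₀⟩ := exists_nat_ge (max (max (T₀ true) (T₀ false)) 1)
  set d : ℕ := Fintype.card (Fin k) * (δ * 1) with hd
  obtain ⟨C, hC, h1⟩ := noZ k d D s hb
  refine ⟨C + 2 * (k * (w₀ + 1) : ℕ), by positivity, ?_⟩
  intro V _ hV T hT S hS
  refine split_small hb w₀ T hT S (fun t ht => (hS t ht).1) fun S' hS' hbig => ?_
  refine h1 V hV T hT S' fun t ht => ?_
  obtain ⟨hbox, z, w, hz, hg, F, hF0, hFd, hFV, hFz⟩ := hS t (hS' ht)
  have hti : ∀ i, T₀ (s i) ≤ (tp b t i : ℝ) := by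
    intro i
    have h2 : (w₀ : ℝ) < tp b t i := by exact_mod_cast hbig t ht i
    have h4 : max (max (T₀ true) (T₀ false)) 1 ≤ (tp b t i : ℝ) := hw₀.trans h2.le
    cases s i
    · exact ((le_max_right _ _).trans (le_max_left _ _)).trans h4
    · exact ((le_max_left _ _).trans (le_max_left _ _)).trans h4
  have hcast : ∀ i, (b i : ℂ) ^ t i = ((tp b t i : ℕ) : ℂ) := by
    intro i
    show _ = ((b i ^ t i : ℕ) : ℂ)
    push_cast
    rfl
  have hpt := fun i => hT₀ (s i) (tp b t i) (w i) (hti i) (by rw [hz i, hcast i]; push_cast; rfl)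
  choose γ w' hγ hZ0 hw hd1 hd2 using hpt
  have hg' : ∀ i, ∃ g : M4, z i * (g.c * w' i + g.d) = g.a * w' i + g.b := by
    intro i
    obtain ⟨g, hgi⟩ := hg i
    exact comp g (γ i) hgi (hγ i)
  choose g hgz using hg'
  have hden : ∀ i, ((g i).c : ℂ) * pS (s i) (tp b t i) 1 + (g i).d * pS (s i) (tp b t i) 0 ≠ 0 := by
    intro i
    rw [← hw i]
    have h2 : ((g i).c : ℂ) * ((w' i : ℂ) * pS (s i) (tp b t i) 0) + (g i).d * pS (s i) (tp b t i) 0 =
        ((g i).c * w' i + (g i).d) * pS (s i) (tp b t i) 0 := by ring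
    rw [h2]
    refine mul_ne_zero ?_ (hZ0 i)
    intro h0
    have h3 := hgz i
    rw [h0, mul_zero] at h3
    have h4 : ((g i).a : ℂ) * (g i).d - (g i).b * (g i).c = 0 := by
      linear_combination ((g i).a : ℂ) * h0 + ((g i).c : ℂ) * h3
    have h5 : (g i).a * (g i).d - (g i).b * (g i).c = 0 := by exact_mod_cast h4
    exact (g i).det h5
  refine ⟨hbox, Tr δ (nI g) (mI g) F, fun h0 => hF0 (tr_neI hFd g h0), Tr_deg (nI_deg g) (mI_deg g) hFd, Tr_mem hFV, ?_⟩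
  rw [Tr_eval hFd (fun v : Σ _ : Fin k, Fin 3 => pS (s v.1) (tp b t v.1) v.2) fun v => by
    rw [mI_eval g (fun i => pS (s i) (tp b t i))]
    exact hden v]
  have e1 : (fun v : Fin k => MvPolynomial.eval₂ (Int.castRingHom ℂ)
      (fun v : Σ _ : Fin k, Fin 3 => pS (s v.1) (tp b t v.1) v.2)
      (nI g v) / MvPolynomial.eval₂ (Int.castRingHom ℂ)
      (fun v : Σ _ : Fin k, Fin 3 => pS (s v.1) (tp b t v.1) v.2) (mI g v)) = z := by
    funext v
    rw [mI_eval g (fun i => pS (s i) (tp b t i)), nI_eval g (fun i => pS (s i) (tp b t i)), div_eq_iff (hden v), ← hw v]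
    linear_combination (-pS (s v) (tp b t v) 0) * hgz v
  rw [e1, hFz, mul_zero]

/-- sum over the signs -/
theorem signs_sum {b : Fin k → ℕ} (T : ℕ) {C : (Fin k → Bool) → ℝ} (Pr : (Fin k → Bool) → (Fin k → ℕ) → Prop) (S : Finset (Fin k → ℕ))
    (hS : ∀ t ∈ S, ∃ s, Pr s t) (h : ∀ s, ∀ S' ⊆ S, (∀ t ∈ S', Pr s t) →
      (S'.card : ℝ) * T ≤ C s * (T : ℝ) ^ k * Real.log T) :
    (S.card : ℝ) * T ≤ (∑ s, C s) * (T : ℝ) ^ k * Real.log T := by
  classical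
  have hcov : S ⊆ Finset.univ.biUnion fun s => S.filter fun t => Pr s t := by
    intro t ht
    obtain ⟨s, hs⟩ := hS t ht
    exact Finset.mem_biUnion.2 ⟨s, Finset.mem_univ _, Finset.mem_filter.2 ⟨ht, hs⟩⟩
  have h3 := (Finset.card_le_card hcov).trans Finset.card_biUnion_le
  have h4 : (S.card : ℝ) ≤ ∑ s, ((S.filter fun t => Pr s t).card : ℝ) := by exact_mod_cast h3
  calc (S.card : ℝ) * T ≤ (∑ s, ((S.filter fun t => Pr s t).card : ℝ)) * T :=
        mul_le_mul_of_nonneg_right h4 (Nat.cast_nonneg _)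
    _ = ∑ s, ((S.filter fun t => Pr s t).card : ℝ) * T := by rw [Finset.sum_mul]
    _ ≤ ∑ s, C s * (T : ℝ) ^ k * Real.log T := Finset.sum_le_sum fun s _ => h s _ (Finset.filter_subset _ _) fun t ht =>
        (Finset.mem_filter.1 ht).2
    _ = _ := by rw [Finset.sum_mul, Finset.sum_mul]

end

end Pool.Agent.X120.JG
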