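import Pool.Agent.X120.JG.Fin

/-!
# The points where `j` is a term of a geometric sequence: relations over number fields with constants
-/

set_option autoImplicit false

open Filter Topology

namespace Pool.Agent.X120.JG

open Pool.Agent.Y113 (DC finrank_pow_le finrank_mul_le)
open Pool.Agent.Y123.GN (bot_fin exists_W')
open Pool.Agent.Y120.J (si jt)
open Pool.Agent.TH21.MS (jj)

section
variable {k q : ℕ}

/-- constants for the first variables -/
noncomputable def gen (w : Option (Fin q) → ℂ) : Option (Fin q) ⊕ Fin k × Fin 3 → MvPolynomial (Fin k × Fin 3) ℂ :=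
  Sum.elim (fun o => MvPolynomial.C (w o)) MvPolynomial.X

theorem gen_DC {W : Submodule ℚ ℂ} (h1 : (1 : ℂ) ∈ W) {w : Option (Fin q) → ℂ} (hw : ∀ o, w o ∈ W)
    (v : Option (Fin q) ⊕ Fin k × Fin 3) : DC 1 W (gen w v) := by
  classical
  rcases v with o | v
  · refine ⟨?_, fun s => ?_⟩
    · show (MvPolynomial.C (w o) : MvPolynomial (Fin k × Fin 3) ℂ).totalDegree ≤ 1
      rw [MvPolynomial.totalDegree_C]
      exact Nat.zero_le _
    · show (MvPolynomial.C (w o) : MvPolynomial (Fin k × Fin 3) ℂ).coeff s ∈ W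
      rw [MvPolynomial.coeff_C]
      split_ifs
      · exact hw o
      · exact W.zero_mem
  · refine ⟨?_, fun s => ?_⟩
    · show (MvPolynomial.X v : MvPolynomial (Fin k × Fin 3) ℂ).totalDegree ≤ 1
      rw [MvPolynomial.totalDegree_X]
    · show (MvPolynomial.X v : MvPolynomial (Fin k × Fin 3) ℂ).coeff s ∈ W
      rw [MvPolynomial.coeff_X]
      split_ifs
      · exact h1
      · exact W.zero_mem

/-- the tuples with a relation over `K` and the constants `w` -/
def ExK (δ : ℕ) (w : Option (Fin q) → ℂ) (K : IntermediateField ℚ ℂ) (a : Fin k → ℂ) : Prop :=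
  ∃ z : Fin k → UpperHalfPlane, (∀ i, jj (z i) = a i ∨ jj (z i) = -a i) ∧
    ∃ P : MvPolynomial (Option (Fin q) ⊕ Fin k × Fin 3) K, P.totalDegree ≤ δ ∧
      MvPolynomial.aeval (Sum.elim w fun v : Fin k × Fin 3 => jt (z v.1) v.2) P = 0 ∧ MvPolynomial.aeval (gen (k := k) w) P ≠ 0

theorem specK (q k δ d : ℕ) {b : Fin k → ℕ} (hb : ∀ i, 2 ≤ b i) :
    ∃ C : ℝ, 0 ≤ C ∧ ∀ (w : Option (Fin q) → ℂ) (K : IntermediateField ℚ ℂ), FiniteDimensional ℚ K → Module.finrank ℚ K ≤ d →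
      ∀ T : ℕ, 2 ≤ T →
      (({t : Fin k → ℕ | (∀ i, 1 ≤ t i ∧ t i ≤ T) ∧ ExK δ w K fun i => (b i : ℂ) ^ t i}.ncard : ℕ) : ℝ) * T ≤
        C * (T : ℝ) ^ k * Real.log T := by
  obtain ⟨C, hC, h1⟩ := jetN k δ (d * (1 + (q + 1) + 1) ^ δ) hb
  refine ⟨C, hC, ?_⟩
  intro w K hKf hKd T hT
  obtain ⟨hbf, hb1⟩ := bot_fin
  obtain ⟨W, hW1, hW2, hKW, hW3⟩ := exists_W' (⊥ : Subfield ℂ) w
  have hW1' : (1 : ℂ) ∈ W := hKW 1 (⊥ : Subfield ℂ).one_mem
  obtain ⟨hp1, hp2⟩ := finrank_pow_le W δ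
  have hWD : Module.finrank ℚ W ≤ 1 + (q + 1) + 1 := by
    refine hW2.trans ?_
    have h9 : Module.finrank ℚ (⊥ : Subfield ℂ) ≤ 1 := by omega
    have h10 : Fintype.card (Option (Fin q)) = q + 1 := by rw [Fintype.card_option, Fintype.card_fin]
    rw [h10]
    omega
  let VK : Submodule ℚ ℂ := LinearMap.range ((Algebra.linearMap K ℂ).restrictScalars ℚ)
  have hVKf : Module.Finite ℚ VK := inferInstance
  have hVKD : Module.finrank ℚ VK ≤ d := le_trans (LinearMap.finrank_range_le _) hKd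
  obtain ⟨hq1, hq2⟩ := finrank_mul_le VK (W ^ δ)
  have h2 := h1 (VK * W ^ δ) (hq2.trans (Nat.mul_le_mul hVKD (hp2.trans (Nat.pow_le_pow_left hWD _)))) T hT
  refine le_trans ?_ h2
  refine mul_le_mul_of_nonneg_right ?_ (Nat.cast_nonneg _)
  have hfin : {t : Fin k → ℕ | (∀ i, 1 ≤ t i ∧ t i ≤ T) ∧ ExJ δ (VK * W ^ δ) fun i => (b i : ℂ) ^ t i}.Finite := by
    refine (Set.finite_Iic (fun _ : Fin k => T)).subset ?_
    intro t ht i
    exact (ht.1 i).2
  have hsub : {t : Fin k → ℕ | (∀ i, 1 ≤ t i ∧ t i ≤ T) ∧ ExK δ w K fun i => (b i : ℂ) ^ t i} ⊆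
      {t : Fin k → ℕ | (∀ i, 1 ≤ t i ∧ t i ≤ T) ∧ ExJ δ (VK * W ^ δ) fun i => (b i : ℂ) ^ t i} := by
    rintro t ⟨hbox, z, hz, P, hPd, hP0, hPg⟩
    have hmap : MvPolynomial.aeval (gen (k := k) w) P = MvPolynomial.aeval (gen (k := k) w) (P.map (algebraMap K ℂ)) := by
      rw [MvPolynomial.aeval_map_algebraMap]
    have hDC : DC δ (VK * W ^ δ) (MvPolynomial.aeval (gen (k := k) w) (P.map (algebraMap K ℂ))) := by
      refine DC.subst' hW1' _ (gen_DC hW1' hW3) ⟨(Finset.sup_mono (MvPolynomial.support_map_subset _ _)).trans hPd, fun s => ?_⟩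
      rw [MvPolynomial.coeff_map]
      exact ⟨P.coeff s, rfl⟩
    refine ⟨hbox, z, hz, MvPolynomial.aeval (gen (k := k) w) (P.map (algebraMap K ℂ)), ?_, hDC.1, hDC.2, ?_⟩
    · rw [← hmap]
      exact hPg
    · rw [← MvPolynomial.aeval_eq_eval, Pool.Agent.X120.GS.aeval_comp']
      have e1 : (fun v => MvPolynomial.aeval (fun v : Fin k × Fin 3 => jt (z v.1) v.2) (gen (k := k) w v)) =
          Sum.elim w fun v : Fin k × Fin 3 => jt (z v.1) v.2 := by
        funext v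
        rcases v with o | v
        · show MvPolynomial.aeval _ (MvPolynomial.C (w o)) = _
          rw [MvPolynomial.aeval_C]
          rfl
        · show MvPolynomial.aeval _ (MvPolynomial.X v) = _
          rw [MvPolynomial.aeval_X]
          rfl
      rw [e1, MvPolynomial.aeval_map_algebraMap]
      exact hP0
  exact_mod_cast Set.ncard_le_ncard hsub hfin

end

end Pool.Agent.X120.JG
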